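import Pool.Agent.W808.KC.T_AS

/-!
Corners of angle `π / 2`: the exact law of the number of legs in terms of the Gamma function and its
asymptotics with the exact constants.
-/

set_option autoImplicit false

namespace Pool.Agent.N622.KC

open Real Filter Topology
open Pool.Agent.W808.KC Pool.Agent.W808.KC.TAS

/-- the `k`-th factor of the law -/
noncomputable def fac (k n : ℕ) : ℝ :=
  ((2 * k).factorial * Gamma (2 * k / 3 + 3 / 2) * (Gamma (n + k / 3 + 2) * Gamma (n - k + 3 / 2))) /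
    (Gamma (3 / 2) * Gamma (4 * k / 3 + 2) * (Gamma (n - k / 3 + 3 / 2) * Gamma (n + k + 2)))

/-- the `k`-th factor of the constant -/
noncomputable def con (k : ℕ) : ℝ :=
  ((2 * k).factorial * Gamma (2 * k / 3 + 3 / 2)) / (Gamma (3 / 2) * Gamma (4 * k / 3 + 2))

lemma hf_zero (t : ℕ) : hf t 0 = t + 1 := by
  unfold hf
  simp only [mul_zero, zero_add, add_zero, Nat.factorial_one, Nat.cast_one, mul_one,
    Finset.prod_range_succ, Finset.prod_range_zero, one_mul,
    Nat.factorial_two]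
  push_cast
  have h1 : (0:ℝ) < 2 * t + 1 := by positivity
  have h2 : (0:ℝ) < 2 * t + 1 + 2 := by positivity
  field_simp
  ring

lemma R_zero (m : ℕ) : R m 0 = 1 / (2 * m + 1) := by
  unfold R
  rw [Cn_eq, Cn_eq, Finset.prod_range_zero, Finset.prod_range_one, hf_zero]
  push_cast
  ring

lemma R_gamma (m M : ℕ) : R m M =
    ((2 * m).factorial * Gamma (2 * m / 3 + 3 / 2) *
      (Gamma (M + 4 * m / 3 + 2) * Gamma (M + 3 / 2))) /
    (Gamma (3 / 2) * Gamma (4 * m / 3 + 2) * (Gamma (M + 2 * m / 3 + 3 / 2) * Gamma (M + 2 * m + 2))) := by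
  have hm : (0:ℝ) ≤ m := Nat.cast_nonneg m
  have g1 : 0 < Gamma (2 * m / 3 + 3 / 2 : ℝ) := Gamma_pos_of_pos (by positivity)
  have g2 : 0 < Gamma (3 / 2 : ℝ) := Gamma_pos_of_pos (by positivity)
  have g3 : 0 < Gamma (4 * m / 3 + 2 : ℝ) := Gamma_pos_of_pos (by positivity)
  induction M with
  | zero =>
    rw [R_zero]
    have e : Gamma (((0 : ℕ) : ℝ) + 2 * m + 2) = (2 * m + 1) * (2 * m).factorial := by
      have := Real.Gamma_nat_eq_factorial (2 * m + 1)
      rw [Nat.factorial_succ] at this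
      push_cast at this
      rw [← this]
      congr 1
      push_cast
      ring
    rw [e]
    simp only [Nat.cast_zero, zero_add]
    have f : (0:ℝ) < (2 * m).factorial := by positivity
    field_simp
  | succ M ih =>
    have hM : (0:ℝ) ≤ M := Nat.cast_nonneg M
    have h := R_ratio m M
    have k1 : Gamma (((M + 1 : ℕ) : ℝ) + 4 * m / 3 + 2) =
        (M + 4 * m / 3 + 2) * Gamma (M + 4 * m / 3 + 2) := by
      rw [← Gamma_add_one (by positivity)]
      congr 1
      push_cast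
      ring
    have k2 : Gamma (((M + 1 : ℕ) : ℝ) + 3 / 2) = (M + 3 / 2) * Gamma (M + 3 / 2) := by
      rw [← Gamma_add_one (by positivity)]
      congr 1
      push_cast
      ring
    have k3 : Gamma (((M + 1 : ℕ) : ℝ) + 2 * m / 3 + 3 / 2) =
        (M + 2 * m / 3 + 3 / 2) * Gamma (M + 2 * m / 3 + 3 / 2) := by
      rw [← Gamma_add_one (by positivity)]
      congr 1
      push_cast
      ring
    have k4 : Gamma (((M + 1 : ℕ) : ℝ) + 2 * m + 2) = (M + 2 * m + 2) * Gamma (M + 2 * m + 2) := by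
      rw [← Gamma_add_one (by positivity)]
      congr 1
      push_cast
      ring
    have p3 : 0 < Gamma ((M : ℝ) + 2 * m / 3 + 3 / 2) := Gamma_pos_of_pos (by positivity)
    have p4 : 0 < Gamma ((M : ℝ) + 2 * m + 2) := Gamma_pos_of_pos (by positivity)
    have h' : R m (M + 1) = R m M * ((4 * m + 3 * M + 6) * (2 * M + 3)) /
        ((4 * m + 6 * M + 9) * (2 * m + M + 2)) := by
      rw [eq_div_iff (by positivity)]
      exact h
    rw [h', ih, k1, k2, k3, k4]
    field_simp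
    ring

lemma R_fac (m n : ℕ) (h : m ≤ n) : R m (n - m) = fac m n := by
  rw [R_gamma]
  unfold fac
  rw [Nat.cast_sub h]
  congr 4
  · congr 1
    ring
  · congr 1
    ring
  · congr 1
    ring

/-- the law in terms of the Gamma function -/
lemma Pk_gamma (n m : ℕ) (hm : 1 ≤ m) (h : m ≤ n + 1) :
    Pk m (n + 1 - m) = ∏ k ∈ Finset.Ico 1 m, fac k n := by
  induction m, hm using Nat.le_induction with
  | base =>
    unfold Pk
    rw [show 1 + (n + 1 - 1) - 1 = n + 1 - 1 by omega, mul_one, div_self (Cn_pos 2 _).ne']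
    simp
  | succ k hk ih =>
    rw [Finset.prod_Ico_succ_top hk, ← ih (by omega), ← R_fac k n (by omega), Pk_step k _ hk,
      show n + 1 - (k + 1) = n - k by omega, show n + 1 - k = n - k + 1 by omega]

/-- the asymptotics of the Gamma function -/
lemma gamma_asymp (s : ℝ) (hs : ∀ j : ℕ, s ≠ -j) :
    Tendsto (fun n : ℕ => Gamma (n + 1 + s) / ((n : ℝ) ^ s * n.factorial)) atTop (𝓝 1) := by
  have hG : Gamma s ≠ 0 := Real.Gamma_ne_zero hs
  have h := (Real.GammaSeq_tendsto_Gamma s).inv₀ hG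
  have h2 := h.const_mul (Gamma s)
  rw [mul_inv_cancel₀ hG] at h2
  refine h2.congr fun n => ?_
  have key : ∀ n : ℕ, Gamma s * ∏ j ∈ Finset.range n, (s + j) = Gamma (n + s) := by
    intro n
    induction n with
    | zero => simp
    | succ n ih =>
      rw [Finset.prod_range_succ, ← mul_assoc, ih]
      have : (n : ℝ) + s ≠ 0 := by
        intro h0
        exact hs n (by linarith)
      have e := Gamma_add_one this
      rw [show ((n + 1 : ℕ) : ℝ) + s = n + s + 1 by push_cast; ring, e]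
      ring
  unfold Real.GammaSeq
  rw [inv_div, mul_div_assoc', key (n + 1)]
  push_cast
  rfl

lemma fac_asymp (k : ℕ) :
    Tendsto (fun n : ℕ => (n : ℝ) ^ (4 * (k : ℝ) / 3) * fac k n) atTop (𝓝 (con k)) := by
  have h1 := gamma_asymp (k / 3 + 1) (fun j => by
    have : (0:ℝ) ≤ j := Nat.cast_nonneg j
    have : (0:ℝ) ≤ k := Nat.cast_nonneg k
    intro h0
    linarith)
  have h2 := gamma_asymp (1 / 2 - k) (fun j => by
    intro h0
    have h : (1 : ℝ) + 2 * j = 2 * k := by linarith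
    have h' : 1 + 2 * j = 2 * k := by exact_mod_cast h
    omega)
  have h3 := gamma_asymp (1 / 2 - k / 3) (fun j => by
    intro h0
    have h : (3 : ℝ) + 6 * j = 2 * k := by linarith
    have h' : 3 + 6 * j = 2 * k := by exact_mod_cast h
    omega)
  have h4 := gamma_asymp (k + 1) (fun j => by
    have : (0:ℝ) ≤ j := Nat.cast_nonneg j
    have : (0:ℝ) ≤ k := Nat.cast_nonneg k
    intro h0
    linarith)
  have h := ((h1.mul h2).div (h3.mul h4) (by norm_num)).const_mul (con k)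
  rw [show con k * (1 * 1 / (1 * 1)) = con k by ring] at h
  refine h.congr' ?_
  filter_upwards [eventually_gt_atTop k] with n hn
  have hn0 : (0:ℝ) < n := by
    have : 0 < n := by omega
    exact_mod_cast this
  have hnk : (k:ℝ) + 1 ≤ n := by exact_mod_cast hn
  have hk : (0:ℝ) ≤ k := Nat.cast_nonneg k
  have e1 : (n:ℝ) + 1 + (k / 3 + 1) = n + k / 3 + 2 := by ring
  have e2 : (n:ℝ) + 1 + (1 / 2 - k) = n - k + 3 / 2 := by ring
  have e3 : (n:ℝ) + 1 + (1 / 2 - k / 3) = n - k / 3 + 3 / 2 := by ring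
  have e4 : (n:ℝ) + 1 + (k + 1) = n + k + 2 := by ring
  simp only [Pi.div_apply, e1, e2, e3, e4]
  unfold fac con
  have p3 : 0 < Gamma ((n : ℝ) - k / 3 + 3 / 2) := Gamma_pos_of_pos (by linarith)
  have p4 : 0 < Gamma ((n : ℝ) + k + 2) := Gamma_pos_of_pos (by positivity)
  have g2 : 0 < Gamma (3 / 2 : ℝ) := Gamma_pos_of_pos (by positivity)
  have g3 : 0 < Gamma (4 * k / 3 + 2 : ℝ) := Gamma_pos_of_pos (by positivity)
  have q1 : (0:ℝ) < (n:ℝ) ^ ((k:ℝ) / 3 + 1) := Real.rpow_pos_of_pos hn0 _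
  have q2 : (0:ℝ) < (n:ℝ) ^ (1 / 2 - (k:ℝ)) := Real.rpow_pos_of_pos hn0 _
  have q3 : (0:ℝ) < (n:ℝ) ^ (1 / 2 - (k:ℝ) / 3) := Real.rpow_pos_of_pos hn0 _
  have q4 : (0:ℝ) < (n:ℝ) ^ ((k:ℝ) + 1) := Real.rpow_pos_of_pos hn0 _
  have f0 : (0:ℝ) < n.factorial := by positivity
  have e5 : (n:ℝ) ^ (4 * (k : ℝ) / 3) =
      (n:ℝ) ^ (1 / 2 - (k:ℝ) / 3) * (n:ℝ) ^ ((k:ℝ) + 1) /
        ((n:ℝ) ^ ((k:ℝ) / 3 + 1) * (n:ℝ) ^ (1 / 2 - (k:ℝ))) := by
    rw [← Real.rpow_add hn0, ← Real.rpow_add hn0, ← Real.rpow_sub hn0]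
    congr 1
    ring
  rw [e5]
  field_simp

/-- asymptotics of the law -/
lemma law_asymp (m : ℕ) (hm : 1 ≤ m) :
    Tendsto (fun n : ℕ => (n : ℝ) ^ (2 * (m : ℝ) * (m - 1) / 3) * ∏ k ∈ Finset.Ico 1 m, fac k n) atTop
      (𝓝 (∏ k ∈ Finset.Ico 1 m, con k)) := by
  induction m, hm using Nat.le_induction with
  | base => simp
  | succ k hk ih =>
    have h := ih.mul (fac_asymp k)
    rw [← Finset.prod_Ico_succ_top hk] at h
    refine h.congr' ?_
    filter_upwards [eventually_gt_atTop 0] with n hn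
    have hn0 : (0:ℝ) < n := by exact_mod_cast hn
    rw [Finset.prod_Ico_succ_top hk]
    have e : (n:ℝ) ^ (2 * ((k + 1 : ℕ) : ℝ) * (((k + 1 : ℕ) : ℝ) - 1) / 3) =
        (n:ℝ) ^ (2 * (k : ℝ) * (k - 1) / 3) * (n:ℝ) ^ (4 * (k : ℝ) / 3) := by
      rw [← Real.rpow_add hn0]
      congr 1
      push_cast
      ring
    rw [e]
    ring

end Pool.Agent.N622.KC
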